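import Pool.Agent.helper73.BRZ.Spec

/-!
# Row brz:PSB (MP_a2a22c_al)

Poisson summation over lattices without short vectors in the dual lattice.
-/

set_option autoImplicit false

namespace Pool.Agent.BRZ

open Matrix Module Pool.Agent.PR Pool.Agent.SHL TensorProduct MeasureTheory
open scoped ENNReal ContDiff RealInnerProductSpace FourierTransform SchwartzMap

lemma PSB_decay {N : ℕ} (F : 𝓢(EE N, ℂ)) : ∃ C : ℝ, 0 < C ∧ ∀ ξ : EE N, ξ ≠ 0 →
    ‖𝓕 (F : EE N → ℂ) ξ‖ ≤ C * (‖ξ‖ ^ (2 * N))⁻¹ := by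
  obtain ⟨C, hC, h⟩ := (𝓕 F : 𝓢(EE N, ℂ)).decay (2 * N) 0
  refine ⟨C, hC, fun ξ hξ => ?_⟩
  have h1 := h ξ
  rw [norm_iteratedFDeriv_zero] at h1
  have h2 : 0 < ‖ξ‖ ^ (2 * N) := pow_pos (norm_pos_iff.2 hξ) _
  rw [← div_eq_mul_inv, le_div_iff₀ h2, mul_comm]
  exact h1

theorem PSB (hPOI : POI_stmt) (hLSB : LSB_stmt) : PSB_stmt := by
  intro N hN f hf hfc _
  obtain ⟨C₁, hC₁⟩ := hLSB N hN
  -- the Schwartz function
  have hs : HasCompactSupport (fun x => (f x : ℂ)) := by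
    refine hfc.comp_left (g := fun t : ℝ => (t : ℂ)) ?_
    exact Complex.ofReal_zero
  have hd : ContDiff ℝ ∞ (fun x => (f x : ℂ)) := Complex.ofRealCLM.contDiff.comp hf
  let F : 𝓢(EE N, ℂ) := hs.toSchwartzMap hd
  have hF : ∀ x, F x = (f x : ℂ) := fun x => rfl
  obtain ⟨C₂, hC₂, hdec⟩ := PSB_decay F
  refine ⟨C₂ * C₁, fun A r hr hA => ?_⟩
  obtain ⟨-, hsum, heq⟩ := hPOI N F A
  obtain ⟨hsl, hle⟩ := hC₁ (LinearMap.adjoint (A.symm : EE N →ₗ[ℝ] EE N)) r hr hA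
  -- abbreviations
  generalize hB : LinearMap.adjoint (A.symm : EE N →ₗ[ℝ] EE N) = B at hsum heq hsl hle hA
  generalize hv : |LinearMap.det (A : EE N →ₗ[ℝ] EE N)|⁻¹ = v at heq
  have hv0 : 0 ≤ v := by
    rw [← hv]
    exact inv_nonneg.2 (abs_nonneg _)
  -- the term of index zero
  have hz : B (zv (0 : Fin N → ℤ)) = 0 := by
    have : zv (0 : Fin N → ℤ) = (0 : EE N) := by
      ext i
      simp [zv]
    rw [this, map_zero]
  have h0 : 𝓕 (F : EE N → ℂ) (B (zv (0 : Fin N → ℤ))) = ((∫ x, f x : ℝ) : ℂ) := by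
    rw [hz, Real.fourier_eq]
    rw [← integral_complex_ofReal]
    refine integral_congr_ae (Filter.Eventually.of_forall fun x => ?_)
    change Real.fourierChar (-⟪x, (0 : EE N)⟫) • F x = _
    rw [inner_zero_right, neg_zero, AddChar.map_zero_eq_one, one_smul, hF]
  -- the other terms
  have hind : HasSum (fun n : Fin N → ℤ => C₂ * Set.indicator {n : Fin N → ℤ | n ≠ 0}
      (fun n => (‖B (zv n)‖ ^ (2 * N))⁻¹) n)
      (C₂ * ∑' n : {n : Fin N → ℤ // n ≠ 0}, (‖B (zv n.1)‖ ^ (2 * N))⁻¹) := by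
    refine HasSum.mul_left _ ?_
    exact hasSum_subtype_iff_indicator.1 hsl.hasSum
  have hbound : ‖∑' n : Fin N → ℤ, ite (n = 0) 0 (𝓕 (F : EE N → ℂ) (B (zv n)))‖ ≤
      C₂ * ∑' n : {n : Fin N → ℤ // n ≠ 0}, (‖B (zv n.1)‖ ^ (2 * N))⁻¹ := by
    refine tsum_of_norm_bounded hind fun n => ?_
    by_cases hn : n = 0
    · rw [if_pos hn, norm_zero, Set.indicator_of_notMem (by simpa using hn), mul_zero]
    · rw [if_neg hn, Set.indicator_of_mem (by simpa using hn)]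
      refine hdec _ ?_
      intro h
      have := hA n hn
      rw [h, norm_zero] at this
      exact absurd this (not_le.2 hr)
  have hreal : (((∑' n : Fin N → ℤ, f (A (zv n))) - v * ∫ x, f x : ℝ) : ℂ) =
      (v : ℂ) * ∑' n : Fin N → ℤ, ite (n = 0) 0 (𝓕 (F : EE N → ℂ) (B (zv n))) := by
    have e1 : ((∑' n : Fin N → ℤ, f (A (zv n)) : ℝ) : ℂ) = ∑' n : Fin N → ℤ, F (A (zv n)) := by
      rw [Complex.ofReal_tsum]
      rfl
    rw [Complex.ofReal_sub, Complex.ofReal_mul, e1, heq, hsum.tsum_eq_add_tsum_ite 0, h0]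
    ring
  have habs : |(∑' n : Fin N → ℤ, f (A (zv n))) - v * ∫ x, f x| =
      ‖(((∑' n : Fin N → ℤ, f (A (zv n))) - v * ∫ x, f x : ℝ) : ℂ)‖ := by
    rw [Complex.norm_real, Real.norm_eq_abs]
  rw [habs, hreal, norm_mul, Complex.norm_real, Real.norm_eq_abs, abs_of_nonneg hv0]
  calc v * ‖∑' n : Fin N → ℤ, ite (n = 0) 0 (𝓕 (F : EE N → ℂ) (B (zv n)))‖
      ≤ v * (C₂ * (C₁ * (r ^ (2 * N))⁻¹)) := by
        refine mul_le_mul_of_nonneg_left (hbound.trans ?_) hv0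
        exact mul_le_mul_of_nonneg_left hle hC₂.le
    _ = C₂ * C₁ * v * (r ^ (2 * N))⁻¹ := by ring

end Pool.Agent.BRZ
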